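import Pool.Agent.H828R3.GP.Three
import Pool.Agent.H499R2.NDFinal

/-! The power saving for the Collatz map on the positive integers. -/

set_option autoImplicit false

namespace Pool.Agent.H828R3.GP

open Pool.Agent.H499R2.ND (Cz Td)
open Pool.Agent.H319R2 (beta beta_lt)

/-- the terms of the orbit under `x ↦ x/2`, `(3x+1)/2` are terms of the Collatz orbit -/
theorem iter_Td (k : ℕ) : ∀ n : ℕ, ∃ o : ℕ, (Td 1)^[k] (n : ℤ) = ((Cz^[o] n : ℕ) : ℤ) := by
  induction k with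
  | zero => intro n; exact ⟨0, rfl⟩
  | succ k ih =>
    intro n
    by_cases h : n % 2 = 0
    · obtain ⟨o, ho⟩ := ih (n / 2)
      refine ⟨o + 1, ?_⟩
      rw [Function.iterate_succ_apply, Function.iterate_succ_apply]
      have e1 : Td 1 (n : ℤ) = ((n / 2 : ℕ) : ℤ) := by
        unfold Td
        rw [if_pos (by omega)]
        omega
      have e2 : Cz n = n / 2 := by simp only [Cz]; rw [if_pos h]
      rw [e1, e2, ho]
    · obtain ⟨o, ho⟩ := ih ((3 * n + 1) / 2)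
      refine ⟨o + 2, ?_⟩
      rw [Function.iterate_succ_apply, Function.iterate_succ_apply, Function.iterate_succ_apply]
      have e1 : Td 1 (n : ℤ) = (((3 * n + 1) / 2 : ℕ) : ℤ) := by
        unfold Td
        rw [if_neg (by omega)]
        omega
      have e2 : Cz n = 3 * n + 1 := by simp only [Cz]; rw [if_neg h]
      have e3 : Cz (3 * n + 1) = (3 * n + 1) / 2 := by simp only [Cz]; rw [if_pos (by omega)]
      rw [e1, e2, e3, ho]

/-- the integers whose Collatz orbit stays above `y` -/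
theorem col_saving {c : ℝ} (hc0 : 0 < c) (hc : c < 1 - beta) : ∃ C : ℝ, 0 < C ∧
    ∀ X y : ℝ, 1 ≤ X → 1 ≤ y →
      ({n : ℕ | 1 ≤ n ∧ (n : ℝ) ≤ X ∧ ∀ k : ℕ, y < (Cz^[k] n : ℕ)}.ncard : ℝ) ≤ C * X / y ^ c := by
  obtain ⟨C, hC, h⟩ := three odd_one hc0 hc
  refine ⟨C, hC, fun X y hX hy => ?_⟩
  refine le_trans ?_ (h X y hX hy)
  have hfin : {x : ℤ | |(x : ℝ)| ≤ X ∧ ∀ n : ℕ, y < |(((Td 1)^[n] x : ℤ) : ℝ)|}.Finite := by
    apply (Set.finite_Icc (-⌈X⌉) ⌈X⌉).subset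
    rintro x ⟨hx, -⟩
    have h1 := abs_le.1 hx
    have h2 := Int.le_ceil X
    rw [Set.mem_Icc]
    constructor
    · have : (-(⌈X⌉ : ℤ) : ℝ) ≤ x := by linarith
      exact_mod_cast this
    · have : (x : ℝ) ≤ (⌈X⌉ : ℤ) := by linarith
      exact_mod_cast this
  have hsub : ((fun n : ℕ => (n : ℤ)) '' {n : ℕ | 1 ≤ n ∧ (n : ℝ) ≤ X ∧ ∀ k : ℕ, y < (Cz^[k] n : ℕ)}) ⊆
      {x : ℤ | |(x : ℝ)| ≤ X ∧ ∀ n : ℕ, y < |(((Td 1)^[n] x : ℤ) : ℝ)|} := by
    rintro _ ⟨n, ⟨hn1, hnX, hn⟩, rfl⟩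
    refine ⟨?_, fun k => ?_⟩
    · simpa using hnX
    · obtain ⟨o, ho⟩ := iter_Td k n
      simp only
      rw [ho]
      have := hn o
      rw [Int.cast_natCast, abs_of_nonneg (Nat.cast_nonneg _)]
      exact this
  have h2 := Set.ncard_le_ncard hsub hfin
  rw [Set.ncard_image_of_injective _ Nat.cast_injective] at h2
  exact_mod_cast h2

end Pool.Agent.H828R3.GP
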