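import Pool.Agent.H319R3.GC.S3
import Pool.Agent.H319R3.GC.I1

/-! The one stage inequality of `H319R3.GC` with an arbitrarily small parameter `ν`, and the iteration over
the scales restarted at an arbitrary scale. -/

set_option autoImplicit false

namespace Pool.Agent.H828R3.GP

open Finset Pool.Agent.H319R3.GC

variable {d : ℕ} {m r : ℕ → ℤ}

/-- `s3_params` of `H319R3.GC.S3` with an upper bound for `ν` -/
theorem s3_params' {D ld lP δ : ℝ} (hD : 2 ≤ D) (hld : 1 / 2 < ld) (hlP : 0 < lP)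
    (hc : lP < D * ld) (hδ0 : 0 < δ) (hδ1 : δ ≤ 1) :
    ∃ hi ν η L₀ : ℝ, ν ≤ δ / (4 * D * ld) ∧ 1 / 4 ≤ hi ∧ hi < 1 ∧ 0 < ν ∧ 0 < η ∧ η ≤ 1 ∧ 144 ≤ L₀ ∧
      ∀ t : ℝ, L₀ ≤ t → ∀ k q q₀ i₁ i₂ : ℕ, k = ⌊3 / 4 * t / ld⌋₊ → q = ⌊ν * t⌋₊ →
        q₀ = ⌊ν * (t / 4)⌋₊ → i₁ = ⌊(1 - η) * k / D⌋₊ → i₂ = ⌈(1 + η) * k / D⌉₊ →
        1 ≤ k ∧ ν * ld / 8 * k ≤ q₀ ∧ q₀ ≤ q ∧ (q : ℝ) ≤ k ∧ i₁ ≤ i₂ ∧
        ((i₂ + q : ℕ) : ℝ) ≤ (1 + δ) * ((i₁ + q : ℕ) : ℝ) ∧
        (1 - δ) * D * ((i₁ + q : ℕ) : ℝ) ≤ k ∧ q * lP ≤ t / 4 ∧ t / 2 ≤ k * ld ∧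
        k * ld ≤ 3 / 4 * t ∧ ∀ l : ℝ, l ≤ i₂ * lP → l + t - k * ld ≤ hi * t := by
  have hld0 : 0 < ld := by linarith
  have hD0 : 0 < D := by linarith
  set ν : ℝ := δ / (4 * D * ld) with hν
  have hν0 : 0 < ν := by positivity
  have hgap : 0 < D * ld - lP := by linarith
  set κ : ℝ := (D * ld - lP) / (2 * D * ld) with hκ
  have hκ0 : 0 < κ := by positivity
  have hκ1 : κ ≤ 1 / 2 := by
    rw [hκ, div_le_iff₀ (by positivity)]; linarith
  set η : ℝ := min (δ / 8) ((D * ld - lP) / (2 * lP)) with hη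
  have hη0 : 0 < η := lt_min (by positivity) (by positivity)
  have hη8 : η ≤ δ / 8 := min_le_left _ _
  have hηP : η * lP ≤ (D * ld - lP) / 2 := by
    have : η ≤ (D * ld - lP) / (2 * lP) := min_le_right _ _
    have h2 := mul_le_mul_of_nonneg_right this hlP.le
    have e : (D * ld - lP) / (2 * lP) * lP = (D * ld - lP) / 2 := by field_simp
    rwa [e] at h2
  refine ⟨1 - κ / 4, ν, η, 144 + 4 * ld + 8 / ν + 12 * D * ld / δ + 4 * lP / κ,
    le_refl _, by linarith, by linarith, hν0, hη0, by linarith, ?_, ?_⟩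
  · have h1 : 0 < 8 / ν := by positivity
    have h2 : 0 < 12 * D * ld / δ := by positivity
    have h3 : 0 < 4 * lP / κ := by positivity
    linarith
  intro t ht k q q₀ i₁ i₂ hk hq hq₀ hi₁ hi₂
  have p1 : 0 < 8 / ν := by positivity
  have p2 : 0 < 12 * D * ld / δ := by positivity
  have p3 : 0 < 4 * lP / κ := by positivity
  have ht144 : 144 ≤ t := by linarith
  have ht0 : 0 < t := by linarith
  have ht1 : 4 * ld ≤ t := by linarith
  have ht2 : 8 / ν ≤ t := by linarith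
  have ht3 : 12 * D * ld / δ ≤ t := by linarith
  have ht4 : 4 * lP / κ ≤ t := by linarith
  have ht2' : 8 ≤ ν * t := by
    rw [div_le_iff₀ hν0] at ht2; linarith
  have ht3' : 12 * D * ld ≤ δ * t := by
    rw [div_le_iff₀ hδ0] at ht3; linarith
  have ht4' : 4 * lP ≤ κ * t := by
    rw [div_le_iff₀ hκ0] at ht4; linarith
  -- k
  have hkle : (k : ℝ) * ld ≤ 3 / 4 * t := by
    have h1 : (k : ℝ) ≤ 3 / 4 * t / ld := by rw [hk]; exact Nat.floor_le (by positivity)
    rwa [le_div_iff₀ hld0] at h1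
  have hkge : 3 / 4 * t - ld < (k : ℝ) * ld := by
    have h1 : 3 / 4 * t / ld < (k : ℝ) + 1 := by rw [hk]; exact Nat.lt_floor_add_one _
    rw [div_lt_iff₀ hld0] at h1
    linarith
  have hk2 : t / 2 ≤ (k : ℝ) * ld := by linarith
  have hk1 : (1 : ℝ) ≤ k := by
    by_contra hcon
    rw [not_le] at hcon
    have : (k : ℝ) * ld < 1 * ld := mul_lt_mul_of_pos_right hcon hld0
    linarith
  have hkpos : (0 : ℝ) < k := by linarith
  -- q
  have hqle : (q : ℝ) ≤ ν * t := by rw [hq]; exact Nat.floor_le (by positivity)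
  have hq0ge : ν * t / 4 - 1 ≤ (q₀ : ℝ) := by
    have : ν * (t / 4) < (q₀ : ℝ) + 1 := by rw [hq₀]; exact Nat.lt_floor_add_one _
    linarith
  have hνD : ν * (D * ld) = δ / 4 := by rw [hν]; field_simp
  have hνt : D * (ν * t) ≤ δ * k / 2 := by
    have e : D * (ν * t) * ld = δ / 4 * t := by rw [← hνD]; ring
    have h1 : D * (ν * t) * ld ≤ δ * k / 2 * ld := by
      rw [e]; linarith [mul_le_mul_of_nonneg_left hk2 hδ0.le]
    exact le_of_mul_le_mul_right h1 hld0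
  have hD1 : (1 : ℝ) ≤ D := by linarith
  have hνt0 : 0 ≤ ν * t := by positivity
  have hqk : (q : ℝ) ≤ k := by
    have h1 : 1 * (ν * t) ≤ D * (ν * t) := mul_le_mul_of_nonneg_right hD1 hνt0
    have h2 : δ * k ≤ 1 * k := mul_le_mul_of_nonneg_right hδ1 hkpos.le
    linarith
  -- i₁, i₂
  set y : ℝ := k / D with hy
  have hy0 : 0 < y := by positivity
  have hyD : y * D = k := by rw [hy]; field_simp
  have hδy : 6 ≤ δ * y := by
    have h1 : 6 * D ≤ δ * k := by
      have h2 : 6 * D * ld ≤ δ * k * ld := by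
        linarith [mul_le_mul_of_nonneg_left hk2 hδ0.le]
      exact le_of_mul_le_mul_right h2 hld0
    have h3 : 6 * D ≤ (δ * y) * D := by rw [mul_assoc, hyD]; exact h1
    exact le_of_mul_le_mul_right h3 hD0
  have ei1 : (1 - η) * k / D = (1 - η) * y := by rw [hy]; ring
  have ei2 : (1 + η) * k / D = (1 + η) * y := by rw [hy]; ring
  rw [ei1] at hi₁
  rw [ei2] at hi₂
  have hη1 : η ≤ 1 / 8 := by linarith
  have hi1le : (i₁ : ℝ) ≤ (1 - η) * y := by
    rw [hi₁]; exact Nat.floor_le (mul_nonneg (by linarith) hy0.le)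
  have hi1ge : (1 - η) * y - 1 ≤ (i₁ : ℝ) := by
    have : (1 - η) * y < (i₁ : ℝ) + 1 := by rw [hi₁]; exact Nat.lt_floor_add_one _
    linarith
  have hi2ge : (1 + η) * y ≤ (i₂ : ℝ) := by rw [hi₂]; exact Nat.le_ceil _
  have hi2le : (i₂ : ℝ) ≤ (1 + η) * y + 1 := by
    rw [hi₂]; exact (Nat.ceil_lt_add_one (by positivity)).le
  refine ⟨by exact_mod_cast hk1, ?_, ?_, hqk, ?_, ?_, ?_, ?_, hk2, hkle, ?_⟩
  · -- ν ld / 8 * k ≤ q₀
    have h1 : ν * ld / 8 * k ≤ ν * t / 8 := by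
      have : ν * (k * ld) ≤ ν * (3 / 4 * t) := mul_le_mul_of_nonneg_left hkle hν0.le
      linarith
    linarith
  · rw [hq, hq₀]
    apply Nat.floor_le_floor
    linarith
  · have h1 : (i₁ : ℝ) ≤ i₂ := by
      have : 0 ≤ η * y := by positivity
      linarith
    exact_mod_cast h1
  · push_cast
    have hq0 : (0 : ℝ) ≤ q := by positivity
    have h1 : (1 + δ) * ((1 - η) * y - 1) ≤ (1 + δ) * i₁ :=
      mul_le_mul_of_nonneg_left hi1ge (by linarith)
    have h2 : (1 + η) * y + 1 ≤ (1 + δ) * ((1 - η) * y - 1) := by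
      have h3 : η * y ≤ δ / 8 * y := mul_le_mul_of_nonneg_right hη8 hy0.le
      have h4 : δ * (η * y) ≤ 1 * (η * y) := mul_le_mul_of_nonneg_right hδ1 (by positivity)
      linarith
    have h5 : 0 ≤ δ * q := by positivity
    linarith
  · push_cast
    have h1 : D * i₁ ≤ k := by
      have h2 : D * i₁ ≤ D * ((1 - η) * y) := mul_le_mul_of_nonneg_left hi1le hD0.le
      have h3 : D * ((1 - η) * y) = (1 - η) * k := by rw [← hyD]; ring
      have h4 : 0 ≤ η * k := by positivity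
      linarith
    have h2 : D * q ≤ δ * k / 2 := by
      have : D * q ≤ D * (ν * t) := mul_le_mul_of_nonneg_left hqle hD0.le
      linarith
    have h3 : (1 - δ) * D * (i₁ + q) = (1 - δ) * (D * i₁ + D * q) := by ring
    rw [h3]
    have h4 : (1 - δ) * (D * i₁ + D * q) ≤ (1 - δ) * (k + δ * k / 2) :=
      mul_le_mul_of_nonneg_left (by linarith) (by linarith)
    have h5 : (1 - δ) * (k + δ * k / 2) = k - δ * k / 2 - δ * δ * k / 2 := by ring
    have h6 : 0 ≤ δ * k / 2 := by positivity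
    have h7 : 0 ≤ δ * δ * k / 2 := by positivity
    linarith
  · have h1 : (q : ℝ) * lP ≤ ν * t * (D * ld) :=
      mul_le_mul hqle hc.le hlP.le hνt0
    have h2 : ν * t * (D * ld) = δ / 4 * t := by rw [← hνD]; ring
    have h3 : δ * t ≤ 1 * t := mul_le_mul_of_nonneg_right hδ1 ht0.le
    linarith
  · intro l hl
    have h1 : (i₂ : ℝ) * lP ≤ ((1 + η) * y + 1) * lP := mul_le_mul_of_nonneg_right hi2le hlP.le
    have h2 : (1 + η) * y * lP ≤ y * ((D * ld + lP) / 2) := by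
      linarith [mul_le_mul_of_nonneg_left hηP hy0.le]
    have h3 : y * ((D * ld + lP) / 2) = k * ld - y * ((D * ld - lP) / 2) := by
      rw [← hyD]; ring
    have h4 : y * ((D * ld - lP) / 2) = κ * (k * ld) := by
      rw [hκ, ← hyD]; field_simp
    have h5 : κ * (t / 2) ≤ κ * (k * ld) := mul_le_mul_of_nonneg_left hk2 hκ0.le
    linarith


open scoped Classical in
/-- the one stage inequality (`stage` of `H319R3.GC.S3`) with an arbitrarily small `ν` -/
theorem stage' (h : Adm d m r) (B : ℕ) (ν₀ : ℝ) (hν₀ : 0 < ν₀) : ∃ lo hi ν L₀ C : ℝ, ν ≤ ν₀ ∧ 0 < lo ∧ lo ≤ hi ∧ hi < 1 ∧ 0 < ν ∧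
    1 ≤ L₀ ∧ 0 < C ∧ ∀ S : Set ℤ, (∀ x ∈ S, Tm d m r x ∈ S) → ∀ a ρ : ℝ, 0 < a → L₀ ≤ Real.log a →
      0 ≤ ρ →
      (∀ a' : ℝ, 0 < a' → lo * Real.log a ≤ Real.log a' → Real.log a' ≤ hi * Real.log a →
        PB S a' (PP d m ^ ⌊ν * Real.log a'⌋₊) ρ) →
      PB S a (PP d m ^ ⌊ν * Real.log a⌋₊) (ρ + C / (Real.log a) ^ B) := by
  have hd2 : 2 ≤ d := h.two_le
  have hdR2 : (2 : ℝ) ≤ d := by exact_mod_cast hd2
  have hdR0 : (0 : ℝ) < d := by linarith
  have hPR2 : (2 : ℝ) ≤ PP d m := by exact_mod_cast h.big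
  have hPR0 : (0 : ℝ) < PP d m := by linarith
  have hP0 : 0 < PP d m := by have := h.big; omega
  have hld : 1 / 2 < Real.log d := by
    have h1 : Real.log 2 ≤ Real.log d := Real.log_le_log (by norm_num) hdR2
    have h2 := Real.log_two_gt_d9
    linarith
  have hld0 : 0 < Real.log d := by linarith
  have hlP : 0 < Real.log (PP d m) := Real.log_pos (by linarith)
  have hc : Real.log (PP d m) < d * Real.log d := by
    have h1 : ((PP d m : ℕ) : ℝ) < (d : ℝ) ^ d := by exact_mod_cast h.contr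
    have h2 := Real.log_lt_log hPR0 h1
    rwa [Real.log_pow] at h2
  obtain ⟨δ₁, hδ₁0, hδ₁1, htv⟩ := tv_groups h B
  obtain ⟨δ, hδ0, hδδ, hδν⟩ : ∃ δ : ℝ, 0 < δ ∧ δ ≤ δ₁ ∧ δ / (4 * d * Real.log d) ≤ ν₀ := by
    refine ⟨min δ₁ (4 * d * Real.log d * ν₀), lt_min hδ₁0 (by positivity), min_le_left _ _, ?_⟩
    rw [div_le_iff₀ (by positivity), mul_comm ν₀]
    exact min_le_right _ _
  have hδ1 : δ ≤ 1 := hδδ.trans hδ₁1
  obtain ⟨hi, ν, η, L₀, hνν, hhi1, hhi2, hν0, hη0, hη1, hL, hpar⟩ :=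
    s3_params' (D := d) (ld := Real.log d) (lP := Real.log (PP d m)) hdR2 hld hlP hc hδ0 hδ1
  obtain ⟨Ct, hCt, htvC⟩ := htv (ν * Real.log d / 8) (by positivity)
  obtain ⟨ct, hct, htyp⟩ := typical hd2 (η := η / d) (by positivity)
  obtain ⟨lam, Cm, hlam, hCm, hmom⟩ := moment h
  obtain ⟨K1, hK1, hexp1⟩ := s3_exp (ct / √(2 * Real.log d)) (by positivity) B
  obtain ⟨K2, hK2, hexp2⟩ := s3_exp (lam / √(2 * Real.log d)) (by positivity) B
  obtain ⟨K3, hK3, hexp3⟩ := s3_exp 1 one_pos B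
  set C : ℝ := 4 * (2 * d * K1 + Cm * K2) + 8 * K3 + 4 * (Ct * (2 * Real.log d) ^ B) with hC
  have hC0 : 0 < C := by positivity
  refine ⟨1 / 4, hi, ν, L₀, C, hνν.trans hδν, by norm_num, hhi1, hhi2, hν0, by linarith, hC0, ?_⟩
  intro S hS a ρ ha hLa hρ hyp
  set t : ℝ := Real.log a with ht
  have ht144 : 144 ≤ t := hL.trans hLa
  have ht0 : 0 < t := by linarith
  have haexp : a = Real.exp t := (Real.exp_log ha).symm
  obtain ⟨hk1, hνk, hq0q, hqk, hi12, hi2q, hi1q, hqlP, hk2, hkle, hM⟩ :=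
    hpar t hLa _ _ _ _ _ rfl rfl rfl rfl rfl
  set k : ℕ := ⌊3 / 4 * t / Real.log d⌋₊ with hk
  set q : ℕ := ⌊ν * t⌋₊ with hq
  set q₀ : ℕ := ⌊ν * (t / 4)⌋₊ with hq₀
  set i₁ : ℕ := ⌊(1 - η) * k / d⌋₊ with hi₁
  set i₂ : ℕ := ⌈(1 + η) * k / d⌉₊ with hi₂
  intro c
  have hkR1 : (1 : ℝ) ≤ k := by exact_mod_cast hk1
  have hkR0 : (0 : ℝ) < k := by linarith
  -- exponentials
  have hdk : (d : ℝ) ^ k = Real.exp (k * Real.log d) := by
    rw [Real.exp_nat_mul, Real.exp_log hdR0]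
  have hPq : ((PP d m ^ q : ℕ) : ℝ) = Real.exp (q * Real.log (PP d m)) := by
    rw [Real.exp_nat_mul, Real.exp_log hPR0, Nat.cast_pow]
  have hdk0 : (0 : ℝ) < (d : ℝ) ^ k := by positivity
  have hQ0 : 0 < PP d m ^ q := pow_pos hP0 q
  have hQR : (0 : ℝ) < ((PP d m ^ q : ℕ) : ℝ) := by exact_mod_cast hQ0
  have hst : √t * √t = t := Real.mul_self_sqrt ht0.le
  have hst12 : 12 ≤ √t := by
    apply Real.le_sqrt_of_sq_le; linarith
  have hkQ : (d : ℝ) ^ k * ((PP d m ^ q : ℕ) : ℝ) ≤ a := by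
    rw [hdk, hPq, haexp, ← Real.exp_add]
    apply Real.exp_le_exp.2
    linarith
  have hk4 : (k : ℝ) ≤ 4 * t := by
    have : (k : ℝ) * (1 / 2) ≤ k * Real.log d := mul_le_mul_of_nonneg_left hld.le hkR0.le
    linarith
  have hsk : √(k : ℝ) ≤ 2 * √t := by
    have h1 : √(k : ℝ) ≤ √(4 * t) := Real.sqrt_le_sqrt hk4
    have h2 : √(4 * t) = 2 * √t := by
      rw [Real.sqrt_mul (by norm_num), show (4 : ℝ) = 2 ^ 2 by norm_num,
        Real.sqrt_sq (by norm_num)]
    rwa [h2] at h1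
  have hE : (d : ℝ) ^ k * Real.exp (√(k : ℝ)) ≤ a * Real.exp (-(1 * √t)) := by
    rw [hdk, haexp, ← Real.exp_add, ← Real.exp_add]
    apply Real.exp_le_exp.2
    nlinarith
  have hQa : ((PP d m ^ q : ℕ) : ℝ) ≤ a * Real.exp (-(1 * √t)) := by
    rw [hPq, haexp, ← Real.exp_add]
    apply Real.exp_le_exp.2
    nlinarith
  have hexple : Real.exp (-(1 * √t)) ≤ 1 := by
    rw [Real.exp_le_one_iff]
    linarith [Real.sqrt_nonneg t]
  have hskge : √t / √(2 * Real.log d) ≤ √(k : ℝ) := by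
    rw [← Real.sqrt_div ht0.le]
    apply Real.sqrt_le_sqrt
    rw [div_le_iff₀ (by positivity)]
    linarith
  -- small terms
  have hs1 : Real.exp (-(ct * k)) ≤ K1 / t ^ B := by
    refine le_trans (Real.exp_le_exp.2 ?_) (hexp1 t ht0)
    have h1 : √(k : ℝ) ≤ k := by
      have h2 : √(k : ℝ) * √(k : ℝ) = k := Real.mul_self_sqrt hkR0.le
      have h3 : 1 ≤ √(k : ℝ) := Real.one_le_sqrt.2 hkR1
      nlinarith
    have h4 : ct / √(2 * Real.log d) * √t = ct * (√t / √(2 * Real.log d)) := by ring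
    rw [h4]
    have h5 : ct * (√t / √(2 * Real.log d)) ≤ ct * k :=
      mul_le_mul_of_nonneg_left (hskge.trans h1) hct.le
    linarith
  have hs2 : Real.exp (-(lam * √(k : ℝ))) ≤ K2 / t ^ B := by
    refine le_trans (Real.exp_le_exp.2 ?_) (hexp2 t ht0)
    have h4 : lam / √(2 * Real.log d) * √t = lam * (√t / √(2 * Real.log d)) := by ring
    rw [h4]
    have h5 := mul_le_mul_of_nonneg_left hskge hlam.le
    linarith
  have hs3 : Real.exp (-(1 * √t)) ≤ K3 / t ^ B := hexp3 t ht0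
  have hs4 : 1 / (k : ℝ) ^ B ≤ (2 * Real.log d) ^ B / t ^ B := by
    rw [div_le_div_iff₀ (by positivity) (by positivity), one_mul, ← mul_pow]
    apply pow_le_pow_left₀ ht0.le
    linarith
  -- the bad words
  set Bad : Finset (List ℕ) :=
    ((LW d k).filter fun w => ∃ i < d, η / d * k < |(w.count i : ℝ) - k / d|) ∪
    ((LW d k).filter fun w => (d : ℝ) ^ k * Real.exp (√(k : ℝ)) < |(Ww d m r w : ℝ)|) with hBad
  have hBadcard : (Bad.card : ℝ) ≤ (d : ℝ) ^ k *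
      (2 * d * Real.exp (-(ct * k)) + Cm * Real.exp (-(lam * √(k : ℝ)))) := by
    have h1 : (Bad.card : ℝ) ≤
        (((LW d k).filter fun w => ∃ i < d, η / d * k < |(w.count i : ℝ) - k / d|).card : ℝ) +
        (((LW d k).filter fun w =>
          (d : ℝ) ^ k * Real.exp (√(k : ℝ)) < |(Ww d m r w : ℝ)|).card : ℝ) := by
      rw [← Nat.cast_add]
      exact Nat.cast_le.2 (Finset.card_union_le _ _)
    have h2 := htyp k
    have h3 := hmom k
    have h4 : (d : ℝ) ^ k * (2 * d * Real.exp (-(ct * k)) + Cm * Real.exp (-(lam * √(k : ℝ))))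
      = 2 * d * ((d : ℝ) ^ k * Real.exp (-(ct * k)))
        + Cm * (d : ℝ) ^ k * Real.exp (-(lam * √(k : ℝ))) := by ring
    rw [h4]
    exact h1.trans (add_le_add h2 h3)
  have hV : ∀ w ∈ LW d k, w ∉ Bad → |(Ww d m r w : ℝ)| ≤ (d : ℝ) ^ k * Real.exp (√(k : ℝ)) := by
    intro w hw hwB
    by_contra hcon
    rw [not_le] at hcon
    exact hwB (Finset.mem_union_right _ (Finset.mem_filter.2 ⟨hw, hcon⟩))
  have hcnt : ∀ w ∈ LW d k, w ∉ Bad →
      PP d m ^ i₁ ∣ (Mw m w).natAbs ∧ (Mw m w).natAbs ∣ PP d m ^ i₂ := by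
    intro w hw hwB
    have hcw : ∀ i < d, |(w.count i : ℝ) - k / d| ≤ η / d * k := by
      intro i hid
      by_contra hcon
      rw [not_le] at hcon
      exact hwB (Finset.mem_union_left _ (Finset.mem_filter.2 ⟨hw, i, hid, hcon⟩))
    constructor
    · apply dvd_Mw hw
      intro i hid
      have h1 := (abs_le.1 (hcw i hid)).1
      rw [hi₁]
      apply Nat.floor_le_of_le
      have e : (1 - η) * (k : ℝ) / d = k / d - η / d * k := by ring
      rw [e]
      linarith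
    · apply Mw_dvd hw
      intro i hid
      have h1 := (abs_le.1 (hcw i hid)).2
      have h2 : (w.count i : ℝ) ≤ i₂ := by
        refine le_trans ?_ (Nat.le_ceil _)
        have e : (1 + η) * (k : ℝ) / d = k / d + η / d * k := by ring
        rw [e]
        linarith
      exact_mod_cast h2
  have hPB : ∀ M ∈ (Ms d m k).filter (fun M => PP d m ^ i₁ ∣ M.natAbs ∧ M.natAbs ∣ PP d m ^ i₂),
      PB S (|(M : ℝ)| * a / (d : ℝ) ^ k) (PP d m ^ q₀) ρ := by
    intro M hMF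
    rw [Finset.mem_filter] at hMF
    obtain ⟨hMs, _, hMi2⟩ := hMF
    have hMpos : 0 < M.natAbs := Nat.pos_of_dvd_of_pos hMi2 (pow_pos hP0 _)
    have hMabs : ((M.natAbs : ℕ) : ℝ) = |(M : ℝ)| := by rw [Nat.cast_natAbs, Int.cast_abs]
    have hM1 : (1 : ℝ) ≤ |(M : ℝ)| := by rw [← hMabs]; exact_mod_cast hMpos
    have hM2 : |(M : ℝ)| ≤ (PP d m : ℝ) ^ i₂ := by
      rw [← hMabs]; exact_mod_cast Nat.le_of_dvd (pow_pos hP0 _) hMi2
    have hM0 : (0 : ℝ) < |(M : ℝ)| := by linarith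
    set a' : ℝ := |(M : ℝ)| * a / (d : ℝ) ^ k with ha'
    have ha'0 : 0 < a' := by positivity
    have hlog : Real.log a' = Real.log |(M : ℝ)| + t - k * Real.log d := by
      rw [ha', Real.log_div (by positivity) (by positivity), Real.log_mul hM0.ne' ha.ne',
        Real.log_pow]
    have hl0 : 0 ≤ Real.log |(M : ℝ)| := Real.log_nonneg hM1
    have hl2 : Real.log |(M : ℝ)| ≤ i₂ * Real.log (PP d m) := by
      have := Real.log_le_log hM0 hM2
      rwa [Real.log_pow] at this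
    have hge : 1 / 4 * t ≤ Real.log a' := by rw [hlog]; linarith
    have hle : Real.log a' ≤ hi * t := by rw [hlog]; exact hM _ hl2
    refine PB.coarse ha'0 (pow_pos hP0 _) (pow_dvd_pow _ ?_) (hyp a' ha'0 hge hle)
    rw [hq₀]
    apply Nat.floor_le_floor
    have := mul_le_mul_of_nonneg_left hge hν0.le
    linarith
  have hcount := s3_count h hS ha (k := k) (Q := PP d m ^ q) (Q₀ := PP d m ^ q₀) (i₁ := i₁)
    (i₂ := i₂) hQ0 (pow_pos hP0 _) (pow_dvd_pow _ hq0q) ?_ hkQ c hρ Bad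
    (V := Real.exp (√(k : ℝ))) (Real.exp_pos _).le ?_ hV hcnt hPB
  · have hi2q' : ((i₂ + q : ℕ) : ℝ) ≤ (1 + δ₁) * ((i₁ + q : ℕ) : ℝ) := by
      refine hi2q.trans (mul_le_mul_of_nonneg_right (by linarith) (Nat.cast_nonneg _))
    have hi1q' : (1 - δ₁) * d * ((i₁ + q : ℕ) : ℝ) ≤ k := by
      refine le_trans ?_ hi1q
      apply mul_le_mul_of_nonneg_right _ (Nat.cast_nonneg _)
      exact mul_le_mul_of_nonneg_right (by linarith) (by linarith)
    have htvk := htvC k i₁ i₂ q₀ q hk1 hνk hq0q hqk hi12 hi2q' hi1q'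
    set T : ℝ := ∑ M ∈ (Ms d m k).filter
      (fun M => PP d m ^ i₁ ∣ M.natAbs ∧ M.natAbs ∣ PP d m ^ i₂),
        tv (gr d m k M) (Ww d m r) (PP d m ^ q₀) (M.natAbs * PP d m ^ q) with hT
    set Q : ℝ := ((PP d m ^ q : ℕ) : ℝ) with hQdef
    set u : ℝ := a / Q with hu
    have hu0 : 0 < u := by positivity
    have e1 : 4 * a / ((d : ℝ) ^ k * Q) = 4 * u / (d : ℝ) ^ k := by
      rw [hu]; field_simp
    have t1 : (Bad.card : ℝ) * (4 * a / ((d : ℝ) ^ k * Q)) ≤ (2 * d * (K1 / t ^ B) + Cm * (K2 / t ^ B)) * (4 * u) := by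
      rw [e1]
      have h1 : (Bad.card : ℝ) ≤ (d : ℝ) ^ k * (2 * d * (K1 / t ^ B) + Cm * (K2 / t ^ B)) := by
        refine hBadcard.trans (mul_le_mul_of_nonneg_left ?_ hdk0.le)
        exact add_le_add (mul_le_mul_of_nonneg_left hs1 (by positivity))
          (mul_le_mul_of_nonneg_left hs2 hCm.le)
      have h2 := mul_le_mul_of_nonneg_right h1 (show (0 : ℝ) ≤ 4 * u / (d : ℝ) ^ k by positivity)
      refine h2.trans (le_of_eq ?_)
      field_simp
    have t2 : 4 * ((d : ℝ) ^ k * Real.exp (√(k : ℝ)) / Q + 1) ≤ 8 * (K3 / t ^ B) * u := by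
      have h1 : (d : ℝ) ^ k * Real.exp (√(k : ℝ)) / Q ≤ u * Real.exp (-(1 * √t)) := by
        rw [hu, div_mul_eq_mul_div]
        exact div_le_div_of_nonneg_right hE hQR.le
      have h2 : 1 ≤ u * Real.exp (-(1 * √t)) := by
        rw [hu, div_mul_eq_mul_div, le_div_iff₀ hQR, one_mul]
        exact hQa
      have h3 : u * Real.exp (-(1 * √t)) ≤ u * (K3 / t ^ B) :=
        mul_le_mul_of_nonneg_left hs3 hu0.le
      linarith
    have t3 : ρ * (2 * a) / Q = 2 * ρ * u := by rw [hu]; ring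
    have t4 : 4 * a / ((d : ℝ) ^ k * Q) * T ≤ 4 * (Ct * ((2 * Real.log d) ^ B / t ^ B)) * u := by
      rw [e1]
      have h1 : T ≤ Ct * (d : ℝ) ^ k * (1 / (k : ℝ) ^ B) := by
        refine htvk.trans (le_of_eq ?_); ring
      have h2 : T ≤ Ct * (d : ℝ) ^ k * ((2 * Real.log d) ^ B / t ^ B) :=
        h1.trans (mul_le_mul_of_nonneg_left hs4 (by positivity))
      have h3 := mul_le_mul_of_nonneg_left h2 (show (0 : ℝ) ≤ 4 * u / (d : ℝ) ^ k by positivity)
      refine h3.trans (le_of_eq ?_)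
      field_simp
    have goal : (ρ + C / t ^ B) * (2 * a) / Q = 2 * ρ * u + 2 * (C / t ^ B) * u := by
      rw [hu]; ring
    rw [goal]
    have hCexp : C / t ^ B = 4 * (2 * d * (K1 / t ^ B) + Cm * (K2 / t ^ B)) + 8 * (K3 / t ^ B)
        + 4 * (Ct * ((2 * Real.log d) ^ B / t ^ B)) := by
      rw [hC]; ring
    have hCpos : 0 ≤ C / t ^ B * u := by positivity
    have hfin : (2 * d * (K1 / t ^ B) + Cm * (K2 / t ^ B)) * (4 * u) + 8 * (K3 / t ^ B) * u
        + 4 * (Ct * ((2 * Real.log d) ^ B / t ^ B)) * u = C / t ^ B * u := by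
      rw [hCexp]; ring
    linarith
  · -- coprimality
    apply Nat.Coprime.pow_left
    unfold PP
    apply Nat.Coprime.prod_left
    intro i hir
    have := h.cop i (Finset.mem_range.1 hir)
    rw [Int.isCoprime_iff_gcd_eq_one] at this
    have h2 : Int.gcd (m i) (d : ℤ) = Nat.gcd (m i).natAbs d := by
      rw [Int.gcd_def]; simp
    rw [h2] at this
    exact this
  · calc (d : ℝ) ^ k * Real.exp (√(k : ℝ)) ≤ a * Real.exp (-(1 * √t)) := hE
      _ ≤ a * 1 := mul_le_mul_of_nonneg_left hexple ha.le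
      _ = a := mul_one a


/-- the iteration over the scales above a starting scale -/
theorem restart {S : Set ℤ} {B P : ℕ} {lo hi ν L₀ C : ℝ} (hB : 1 ≤ B) (hlo : 0 < lo)
    (hlh : lo ≤ hi) (hhi : hi < 1) (hC : 0 < C)
    (hst : ∀ a ρ : ℝ, 0 < a → L₀ ≤ Real.log a → 0 ≤ ρ →
      (∀ a' : ℝ, 0 < a' → lo * Real.log a ≤ Real.log a' → Real.log a' ≤ hi * Real.log a →
        PB S a' (P ^ ⌊ν * Real.log a'⌋₊) ρ) →
      PB S a (P ^ ⌊ν * Real.log a⌋₊) (ρ + C / (Real.log a) ^ B))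
    {t₁ ρ₀ : ℝ} (ht₁ : L₀ ≤ t₁) (ht0 : 0 < t₁) (hρ₀ : 0 ≤ ρ₀)
    (hbase : ∀ a : ℝ, 0 < a → lo * t₁ ≤ Real.log a → Real.log a ≤ t₁ →
      PB S a (P ^ ⌊ν * Real.log a⌋₊) ρ₀)
    (a : ℝ) (ha : 0 < a) (hla : lo * t₁ ≤ Real.log a) :
    PB S a (P ^ ⌊ν * Real.log a⌋₊)
      (ρ₀ + C / ((1 / hi) ^ B - 1) * (1 / (lo * t₁)) ^ B) := by
  set l : ℝ := t₁ with hl
  have hl0 : 0 < l := ht0
  have hhi0 : 0 < hi := hlo.trans_le hlh
  have hq1 : 1 < (1 / hi) ^ B := by
    apply one_lt_pow₀ _ (by omega)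
    rw [one_lt_div hhi0]; exact hhi
  set K : ℝ := C / ((1 / hi) ^ B - 1) with hK
  have hK0 : 0 < K := div_pos hC (by linarith)
  have hKe : K * ((1 / hi) ^ B - 1) = C := by
    rw [hK]; exact div_mul_cancel₀ _ (by linarith)
  set g : ℝ → ℝ := fun s => K * ((1 / (lo * l)) ^ B - (1 / s) ^ B) with hg
  have hll : 0 < lo * l := mul_pos hlo hl0
  have hgmono : ∀ s s' : ℝ, 0 < s → s ≤ s' → g s ≤ g s' := by
    intro s s' hs hss
    simp only [hg]
    have hs' : 0 < s' := by linarith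
    have h1 : (1 / s') ^ B ≤ (1 / s) ^ B := by gcongr
    exact mul_le_mul_of_nonneg_left (by linarith) hK0.le
  have hg0 : ∀ s : ℝ, lo * l ≤ s → 0 ≤ g s := by
    intro s hs
    have h1 := hgmono (lo * l) s hll hs
    have h2 : g (lo * l) = 0 := by simp only [hg]; rw [sub_self, mul_zero]
    linarith
  have key : ∀ n : ℕ, ∀ a : ℝ, 0 < a → lo * l ≤ Real.log a → hi ^ n * Real.log a ≤ l →
      PB S a (P ^ ⌊ν * Real.log a⌋₊) (ρ₀ + g (Real.log a)) := by
    intro n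
    induction n with
    | zero =>
      intro a ha h1 h2
      rw [pow_zero, one_mul] at h2
      exact I1_PB_mono ha (hbase a ha h1 h2) (by linarith [hg0 _ h1])
    | succ n ih =>
      intro a ha h1 h2
      by_cases hal : Real.log a ≤ l
      · exact I1_PB_mono ha (hbase a ha h1 hal) (by linarith [hg0 _ h1])
      · push Not at hal
        have hla0 : 0 < Real.log a := by linarith
        have h3 : lo * l ≤ hi * Real.log a := by
          calc lo * l ≤ hi * l := by gcongr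
            _ ≤ hi * Real.log a := by gcongr
        have h4 := hst a (ρ₀ + g (hi * Real.log a)) ha (by linarith) (by linarith [hg0 _ h3]) (by
          intro a' ha' h5 h6
          have h7 : lo * l ≤ Real.log a' := by
            refine le_trans ?_ h5
            gcongr
          have h8 : hi ^ n * Real.log a' ≤ l := by
            calc hi ^ n * Real.log a' ≤ hi ^ n * (hi * Real.log a) := by gcongr
              _ = hi ^ (n + 1) * Real.log a := by ring
              _ ≤ l := h2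
          exact I1_PB_mono ha' (ih a' ha' h7 h8) (by linarith [hgmono _ _ (by linarith) h6]))
        apply I1_PB_mono ha h4
        simp only [hg]
        have h9 : (1 / (hi * Real.log a)) ^ B = (1 / hi) ^ B * (1 / Real.log a) ^ B := by
          rw [← mul_pow]
          congr 1
          field_simp
        have h10 : C / Real.log a ^ B = C * (1 / Real.log a) ^ B := by
          rw [one_div, inv_pow]; ring
        rw [h9, h10, ← hKe]
        apply le_of_eq
        ring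
  obtain ⟨n, hn⟩ : ∃ n : ℕ, hi ^ n * Real.log a ≤ l := by
    have h1 : 0 < l / (|Real.log a| + 1) := by positivity
    obtain ⟨n, hn⟩ := exists_pow_lt_of_lt_one h1 hhi
    refine ⟨n, ?_⟩
    rw [lt_div_iff₀ (by positivity)] at hn
    have h2 : hi ^ n * Real.log a ≤ hi ^ n * (|Real.log a| + 1) := by
      gcongr
      have := le_abs_self (Real.log a)
      linarith
    linarith
  refine I1_PB_mono ha (key n a ha hla hn) ?_
  simp only [hg]
  gcongr
  have : 0 ≤ (1 / Real.log a) ^ B := by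
    have : 0 < Real.log a := by linarith
    positivity
  linarith

end Pool.Agent.H828R3.GP
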