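import Pool.Agent.H828R3.GP.Main
import Pool.Agent.H319R2.GTk
import Pool.Agent.H499R2.NDCor

/-! The `3x+k` maps. -/

set_option autoImplicit false

namespace Pool.Agent.H828R3.GP

open Finset Filter Topology Pool.Agent.H499R2.ND
open Pool.Agent.H319R3.GC (Adm Tm PP)
open Pool.Agent.H319R2 (beta beta_lt)

/-- multipliers of the `3x+k` map -/
def m3 : ℕ → ℤ := fun i => if i = 0 then 1 else 3

/-- offsets of the `3x+k` map -/
def r3 (k : ℤ) : ℕ → ℤ := fun i => if i = 0 then 0 else -k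

theorem adm3 {k : ℤ} (hk : Odd k) : Adm 2 m3 (r3 k) where
  two_le := le_refl _
  cop := by
    intro i hi
    interval_cases i
    · simpa [m3] using isCoprime_one_left
    · simp only [m3]
      norm_num
  adm := by
    intro i hi
    obtain ⟨t, ht⟩ := hk
    interval_cases i
    · simp [m3, r3]
    · simp only [m3, r3]
      norm_num
      omega
  contr := by
    unfold PP m3
    simp [Finset.prod_range_succ]
  big := by
    unfold PP m3
    simp [Finset.prod_range_succ]

theorem Tm3 (k : ℤ) : Tm 2 m3 (r3 k) = Td k := by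
  funext x
  unfold Tm Td
  rcases Int.emod_two_eq_zero_or_one x with h | h
  · rw [if_pos h]
    have : (x % ((2 : ℕ) : ℤ)).toNat = 0 := by
      push_cast; rw [h]; rfl
    rw [this]
    simp [m3, r3]
  · rw [if_neg (by omega)]
    have : (x % ((2 : ℕ) : ℤ)).toNat = 1 := by
      push_cast; rw [h]; rfl
    rw [this]
    simp [m3, r3]

/-- UNIFORM POWER SAVING for the `3x+k` maps -/
theorem three {k : ℤ} (hk : Odd k) {c : ℝ} (hc0 : 0 < c) (hc : c < 1 - beta) :
    ∃ C : ℝ, 0 < C ∧ ∀ X y : ℝ, 1 ≤ X → 1 ≤ y →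
    ({x : ℤ | |(x : ℝ)| ≤ X ∧ ∀ n : ℕ, y < |(((Td k)^[n] x : ℤ) : ℝ)|}.ncard : ℝ) ≤ C * X / y ^ c := by
  obtain ⟨η, hη1, hη2⟩ := exists_between (max_lt (by linarith : beta < 1 - c)
    (by have := beta_lt; have : 0 < 1 - c := by
          have h1 : (0 : ℝ) ≤ beta := by
            unfold beta
            apply div_nonneg _ (Real.log_nonneg (by norm_num))
            apply Real.binEntropy_nonneg
            · exact div_nonneg (Real.log_nonneg (by norm_num)) (Real.log_nonneg (by norm_num))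
            · rw [div_le_one (Real.log_pos (by norm_num))]
              exact Real.log_le_log (by norm_num) (by norm_num)
          linarith
        exact this : (0 : ℝ) < 1 - c))
  have hb : beta < η := (le_max_left _ _).trans_lt hη1
  have h0 : 0 < η := (le_max_right _ _).trans_lt hη1
  obtain ⟨s, hs, hsum⟩ := Pool.Agent.H319R2.Tk.cond η hb
  have h := power_saving (adm3 hk) (s := s) (η := η) hs h0.le (by linarith) (by
    rw [Finset.sum_range_succ, Finset.sum_range_one]
    simp only [m3]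
    norm_num
    have e : (1 / 2 : ℝ) ^ s = 2⁻¹ ^ s := by norm_num
    rw [e] at hsum
    first
      | exact hsum.le
      | (refine le_trans (le_of_eq ?_) hsum.le; norm_num)) hc0 (by linarith)
  rw [Tm3] at h
  exact h

theorem three_side {k : ℤ} (hk : Odd k) {c : ℝ} (hc0 : 0 < c) (hc : c < 1 - beta) {s : ℤ}
    (hs : s = 1 ∨ s = -1) : ∃ K : ℝ, 0 < K ∧ ∀ y : ℝ, 1 ≤ y → ∀ X : ℝ, 0 ≤ X →
      G {x | s * x ∈ Stay k y} X ≤ K * X / y ^ c := by
  obtain ⟨C, hC, h⟩ := three hk hc0 hc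
  refine ⟨C, hC, fun y hy X hX => ?_⟩
  have hyc : 0 < y ^ c := Real.rpow_pos_of_pos (by linarith) _
  rcases lt_or_ge X 1 with hX1 | hX1
  · have h1 : pos {x | s * x ∈ Stay k y} X = ∅ := by
      rw [Finset.eq_empty_iff_forall_notMem]
      intro x hx
      rw [mem_pos] at hx
      have : (1 : ℝ) ≤ (x : ℝ) := by exact_mod_cast hx.1.1
      linarith [hx.1.2]
    unfold G
    rw [h1, card_empty, Nat.cast_zero]
    positivity
  refine le_trans ?_ (h X y hX1 hy)
  unfold G
  have hfin : {x : ℤ | |(x : ℝ)| ≤ X ∧ ∀ n : ℕ, y < |(((Td k)^[n] x : ℤ) : ℝ)|}.Finite := by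
    apply (Set.finite_Icc (-⌈X⌉) ⌈X⌉).subset
    rintro x ⟨hx, -⟩
    have h1 := abs_le.1 hx
    have h2 := Int.le_ceil X
    rw [Set.mem_Icc]
    constructor
    · have : (-(⌈X⌉ : ℤ) : ℝ) ≤ x := by linarith
      exact_mod_cast this
    · have : (x : ℝ) ≤ (⌈X⌉ : ℤ) := by linarith
      exact_mod_cast this
  have hinj : ((pos {x | s * x ∈ Stay k y} X).image (fun x => s * x)).card =
      (pos {x | s * x ∈ Stay k y} X).card := by
    apply card_image_of_injective
    intro a b hab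
    simp only at hab
    rcases hs with rfl | rfl <;> linarith
  have hsub : (((pos {x | s * x ∈ Stay k y} X).image (fun x => s * x) : Finset ℤ) : Set ℤ) ⊆
      {x : ℤ | |(x : ℝ)| ≤ X ∧ ∀ n : ℕ, y < |(((Td k)^[n] x : ℤ) : ℝ)|} := by
    intro z hz
    rw [mem_coe, mem_image] at hz
    obtain ⟨x, hx, rfl⟩ := hz
    rw [mem_pos] at hx
    refine ⟨?_, hx.2⟩
    have h1 : (1 : ℝ) ≤ (x : ℝ) := by exact_mod_cast hx.1.1
    push_cast
    rw [abs_mul]
    have h2 : |(s : ℝ)| = 1 := by rcases hs with rfl | rfl <;> simp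
    rw [h2, one_mul, abs_of_pos (by linarith)]
    exact hx.1.2.le
  have h3 := Set.ncard_le_ncard hsub hfin
  rw [Set.ncard_coe_finset, hinj] at h3
  exact_mod_cast h3

/-- an invariant set with no element in `[-y,y]` has density `≤ K y^(-c)` -/
theorem tail3 {k : ℤ} (hk : Odd k) {c : ℝ} (hc0 : 0 < c) (hc : c < 1 - beta) {s : ℤ}
    (hs : s = 1 ∨ s = -1) : ∃ K : ℝ, 0 < K ∧ ∀ y : ℝ, 1 ≤ y → ∀ S : Set ℤ, Inv k S →
      (∀ x ∈ S, y < |(x : ℝ)|) → ∀ l : ℝ, HD s S l → l ≤ K / y ^ c := by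
  obtain ⟨K, hK, h⟩ := three_side hk hc0 hc hs
  refine ⟨K, hK, fun y hy S hS hSy l hl => ?_⟩
  have hyc : 0 < y ^ c := Real.rpow_pos_of_pos (by linarith) _
  apply le_of_tendsto hl
  filter_upwards [eventually_gt_atTop (0 : ℝ)] with X hX
  rw [div_le_div_iff₀ hX (by positivity)]
  have h1 := h y hy X hX.le
  rw [le_div_iff₀ (by positivity)] at h1
  refine le_trans ?_ h1
  apply mul_le_mul_of_nonneg_right _ (by positivity)
  unfold G
  have : pos {x | s * x ∈ S} X ⊆ pos {x | s * x ∈ Stay k y} X := by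
    intro x hx
    rw [mem_pos] at hx ⊢
    refine ⟨hx.1, fun n => hSy _ ((inv_iter hS n _).1 hx.2)⟩
  exact_mod_cast card_le_card this

end Pool.Agent.H828R3.GP
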